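import Mathlib
import Pool.Agent.helper7.OC.Defs2
import Pool.Agent.helper12.OC.BB0
import Pool.Agent.helper22.OC.BB6a

/-!
# Odd values of the partition function: SS1, blocks
-/

set_option autoImplicit false

open Finset

namespace Pool.Agent.helper7.OC

lemma ss1_card_dvd (P : Finset ℕ) (n : ℕ) (hP : ∀ ℓ ∈ P, ℓ.Prime) (hn : n ≠ 0) :
    (P.filter fun ℓ => ℓ ∣ n).card ≤ Nat.log 2 n := by
  have h1 : (P.filter fun ℓ => ℓ ∣ n) ⊆ n.primeFactors := by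
    intro ℓ hℓ
    rw [mem_filter] at hℓ
    exact Nat.mem_primeFactors.mpr ⟨hP ℓ hℓ.1, hℓ.2, hn⟩
  refine (card_le_card h1).trans ?_
  apply Nat.le_log_of_pow_le (by norm_num)
  calc 2 ^ n.primeFactors.card ≤ ∏ p ∈ n.primeFactors, p := by
        rw [← Finset.prod_const]
        exact Finset.prod_le_prod (fun _ _ => by norm_num)
          (fun p hp => (Nat.prime_of_mem_primeFactors hp).two_le)
    _ ≤ n := Nat.le_of_dvd (Nat.pos_of_ne_zero hn) (Nat.prod_primeFactors_dvd n)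

lemma ss1_abs_J (ℓ m : ℕ) : |J ℓ m| ≤ 1 := by
  rcases J_vals ℓ m with h | h | h <;> rw [h] <;> norm_num

lemma ss1_J_zero (ℓ m : ℕ) (hℓ : ℓ.Prime) (h : J ℓ m = 0) : ℓ ∣ m := by
  unfold J at h
  have h1 : jacobiSym (ℓ : ℤ) m = 0 := by exact_mod_cast h
  by_contra hd
  have hc : Nat.Coprime ℓ m := (Nat.Prime.coprime_iff_not_dvd hℓ).2 hd
  have h2 : Int.gcd (ℓ : ℤ) (m : ℤ) = 1 := by
    rw [Int.gcd_natCast_natCast]; exact hc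
  have h3 := jacobiSym.eq_one_or_neg_one h2
  rcases h3 with h3 | h3 <;> rw [h1] at h3 <;> norm_num at h3

lemma ss1_sum_le (P : Finset ℕ) (V : ℕ) (hV : 1 ≤ V) (hP : ∀ ℓ ∈ P, V < ℓ) (f : ℕ → ℝ)
    (hf : ∀ ℓ ∈ P, |f ℓ| ≤ 1) : |∑ ℓ ∈ P, f ℓ / ℓ| ≤ (P.card : ℝ) / V := by
  have hV0 : (0 : ℝ) < V := by exact_mod_cast hV
  calc |∑ ℓ ∈ P, f ℓ / ℓ| ≤ ∑ ℓ ∈ P, |f ℓ / ℓ| := abs_sum_le_sum_abs _ _
    _ ≤ ∑ _ℓ ∈ P, 1 / (V : ℝ) := by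
        refine sum_le_sum fun ℓ hℓ => ?_
        have h1 : (V : ℝ) ≤ ℓ := by exact_mod_cast (hP ℓ hℓ).le
        rw [abs_div, abs_of_nonneg (by positivity : (0 : ℝ) ≤ (ℓ : ℝ))]
        exact div_le_div₀ (by norm_num) (hf ℓ hℓ) hV0 h1
    _ = (P.card : ℝ) / V := by
        rw [sum_const, nsmul_eq_mul]; ring

theorem block_lower : ∃ (C₁ : ℕ) (c₂ : ℝ) (b₀ : ℕ), 2 ≤ C₁ ∧ 0 < c₂ ∧ ∀ b : ℕ, b₀ ≤ b →
    c₂ / b ≤ hs (P5 (2 ^ b) (C₁ * 2 ^ b)) := by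
  obtain ⟨C₁, c, V₁, hC, hc, h⟩ := primes5
  have hC0 : (0 : ℝ) < C₁ := by exact_mod_cast (by omega : 0 < C₁)
  refine ⟨C₁, c / C₁, V₁ + 1, hC, by positivity, fun b hb => ?_⟩
  have hb1 : 1 ≤ b := by omega
  have hb0 : (0 : ℝ) < b := by exact_mod_cast hb1
  have hVb : V₁ ≤ 2 ^ b := le_trans (by omega) (Nat.lt_two_pow_self (n := b)).le
  have h1 := h (2 ^ b) hVb
  have hV0 : (0 : ℝ) < (2 : ℝ) ^ b := by positivity
  have hlog : Real.log ((2 ^ b : ℕ) : ℝ) = b * Real.log 2 := by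
    push_cast; rw [Real.log_pow]
  have hl2 : 0 < Real.log 2 := Real.log_pos (by norm_num)
  have hl2' : Real.log 2 < 1 := by
    have := Real.log_two_lt_d9; linarith
  rw [hlog] at h1
  have h2 : hs (P5 (2 ^ b) (C₁ * 2 ^ b)) ≥
      ((P5 (2 ^ b) (C₁ * 2 ^ b)).card : ℝ) * (1 / (C₁ * 2 ^ b)) := by
    unfold hs
    rw [← nsmul_eq_mul, ← sum_const]
    refine sum_le_sum fun ℓ hℓ => ?_
    unfold P5 at hℓ
    rw [mem_filter, mem_Ioc] at hℓ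
    have h3 : (ℓ : ℝ) ≤ C₁ * 2 ^ b := by exact_mod_cast hℓ.1.2
    have h4 : (0 : ℝ) < ℓ := by exact_mod_cast (by omega : 0 < ℓ)
    exact one_div_le_one_div_of_le h4 h3
  refine le_trans ?_ h2
  have h5 : c * ((2 ^ b : ℕ) : ℝ) / (b * Real.log 2) * (1 / (C₁ * 2 ^ b)) ≤
      ((P5 (2 ^ b) (C₁ * 2 ^ b)).card : ℝ) * (1 / (C₁ * 2 ^ b)) :=
    mul_le_mul_of_nonneg_right h1 (by positivity)
  refine le_trans ?_ h5
  have h6 : c * ((2 ^ b : ℕ) : ℝ) / (b * Real.log 2) * (1 / (C₁ * 2 ^ b)) =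
      (c / C₁) / (b * Real.log 2) := by
    push_cast
    field_simp
  rw [h6]
  apply div_le_div_of_nonneg_left (by positivity) (by positivity)
  nlinarith

theorem nonharm (P : Finset ℕ) (V m : ℕ) (hV : 1 ≤ V) (hP : ∀ ℓ ∈ P, ℓ.Prime ∧ V < ℓ) (hm : m ≠ 0) :
    hs (P.filter fun ℓ => J ℓ m ≠ -1) ≤ (hs P + cs P m) / 2 + (Nat.log 2 m : ℝ) / V := by
  classical
  have hV0 : (0 : ℝ) < V := by exact_mod_cast hV
  have h1 : hs (P.filter fun ℓ => J ℓ m ≠ -1) =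
      (hs P + cs P m) / 2 + (∑ ℓ ∈ P.filter (fun ℓ => ℓ ∣ m), (if J ℓ m = 0 then (1 / 2 : ℝ) else 0) / ℓ) := by
    unfold hs cs
    rw [← sum_add_distrib, sum_div, sum_filter, sum_filter, ← sum_add_distrib]
    refine sum_congr rfl fun ℓ hℓ => ?_
    have hp := (hP ℓ hℓ).1
    rcases J_vals ℓ m with h | h | h
    · have hd := ss1_J_zero ℓ m hp h
      rw [h]
      simp [hd]
      ring
    · rw [h]
      norm_num
    · rw [h]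
      norm_num
      ring
  rw [h1]
  have h2 := ss1_sum_le (P.filter fun ℓ => ℓ ∣ m) V hV
    (fun ℓ hℓ => (hP ℓ (mem_filter.mp hℓ).1).2) (fun ℓ => if J ℓ m = 0 then (1 / 2 : ℝ) else 0)
    (fun ℓ _ => by split_ifs <;> norm_num)
  have h3 := ss1_card_dvd P m (fun ℓ hℓ => (hP ℓ hℓ).1) hm
  have h4 : ((P.filter fun ℓ => ℓ ∣ m).card : ℝ) / V ≤ (Nat.log 2 m : ℝ) / V :=
    div_le_div_of_nonneg_right (by exact_mod_cast h3) hV0.le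
  have h5 := le_abs_self (∑ ℓ ∈ P.filter (fun ℓ => ℓ ∣ m), (if J ℓ m = 0 then (1 / 2 : ℝ) else 0) / ℓ)
  linarith

theorem cs_kernel (P : Finset ℕ) (V m f : ℕ) (hV : 1 ≤ V) (hP : ∀ ℓ ∈ P, ℓ.Prime ∧ V < ℓ)
    (hm : m ≠ 0) (hf : f ≠ 0) : |cs P (m * f ^ 2) - cs P m| ≤ (Nat.log 2 f : ℝ) / V := by
  classical
  have hV0 : (0 : ℝ) < V := by exact_mod_cast hV
  have h1 : cs P (m * f ^ 2) - cs P m = ∑ ℓ ∈ P.filter (fun ℓ => ℓ ∣ f), (-(J ℓ m)) / ℓ := by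
    unfold cs
    rw [← sum_sub_distrib, sum_filter]
    refine sum_congr rfl fun ℓ hℓ => ?_
    rw [J_kernel ℓ m f (hP ℓ hℓ).1 hm hf]
    split_ifs
    · ring
    · ring
  rw [h1]
  have h2 := ss1_sum_le (P.filter fun ℓ => ℓ ∣ f) V hV
    (fun ℓ hℓ => (hP ℓ (mem_filter.mp hℓ).1).2) (fun ℓ => -(J ℓ m))
    (fun ℓ _ => by rw [abs_neg]; exact ss1_abs_J ℓ m)
  have h3 := ss1_card_dvd P f (fun ℓ hℓ => (hP ℓ hℓ).1) hf
  exact h2.trans (div_le_div_of_nonneg_right (by exact_mod_cast h3) hV0.le)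

theorem cs_dyadic (a b M : ℕ) (hab : a ≤ b) :
    cs (PA (2 ^ a) (2 ^ b)) M = ∑ j ∈ Ico a b, cs (PA (2 ^ j) (2 ^ (j + 1))) M := by
  induction b, hab using Nat.le_induction with
  | base => simp [cs, PA]
  | succ b hab ih =>
    rw [Finset.sum_Ico_succ_top hab, ← ih]
    unfold cs PA
    rw [sum_filter, sum_filter, sum_filter]
    exact (sum_Ioc_consecutive (fun ℓ => if Nat.Prime ℓ then J ℓ M / ℓ else 0)
      (Nat.pow_le_pow_right (by norm_num) hab) (Nat.pow_le_pow_right (by norm_num) (Nat.le_succ b))).symm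

theorem cs_sdiff (P 𝒟 : Finset ℕ) (V m : ℕ) (hV : 1 ≤ V) (hP : ∀ ℓ ∈ P, V < ℓ) :
    |cs (P \ 𝒟) m - cs P m| ≤ (𝒟.card : ℝ) / V := by
  classical
  have hV0 : (0 : ℝ) < V := by exact_mod_cast hV
  have h1 : cs (P \ 𝒟) m - cs P m = ∑ ℓ ∈ P ∩ 𝒟, (-(J ℓ m)) / ℓ := by
    unfold cs
    have := sum_inter_add_sum_sdiff P 𝒟 (fun ℓ => J ℓ m / (ℓ : ℝ))
    rw [← this]
    simp only [neg_div, sum_neg_distrib]
    ring
  rw [h1]
  have h2 := ss1_sum_le (P ∩ 𝒟) V hV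
    (fun ℓ hℓ => hP ℓ (mem_inter.mp hℓ).1) (fun ℓ => -(J ℓ m))
    (fun ℓ _ => by rw [abs_neg]; exact ss1_abs_J ℓ m)
  refine h2.trans (div_le_div_of_nonneg_right ?_ hV0.le)
  exact_mod_cast card_le_card inter_subset_right

theorem hs_sdiff (P 𝒟 : Finset ℕ) (V : ℕ) (hV : 1 ≤ V) (hP : ∀ ℓ ∈ P, V < ℓ) :
    hs P - (𝒟.card : ℝ) / V ≤ hs (P \ 𝒟) := by
  classical
  have hV0 : (0 : ℝ) < V := by exact_mod_cast hV
  have h1 : hs P - hs (P \ 𝒟) = ∑ ℓ ∈ P ∩ 𝒟, (1 : ℝ) / ℓ := by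
    unfold hs
    have := sum_inter_add_sum_sdiff P 𝒟 (fun ℓ => 1 / (ℓ : ℝ))
    rw [← this]
    ring
  have h2 := ss1_sum_le (P ∩ 𝒟) V hV
    (fun ℓ hℓ => hP ℓ (mem_inter.mp hℓ).1) (fun _ => 1)
    (fun ℓ _ => by norm_num)
  have h3 : ((P ∩ 𝒟).card : ℝ) / V ≤ (𝒟.card : ℝ) / V :=
    div_le_div_of_nonneg_right (by exact_mod_cast card_le_card inter_subset_right) hV0.le
  have h4 := le_abs_self (∑ ℓ ∈ P ∩ 𝒟, (1 : ℝ) / ℓ)
  linarith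

end Pool.Agent.helper7.OC
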