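import Mathlib
import Pool.Agent.helper7.OC.Defs2
import Pool.Agent.helper23.OC.BBfin
import Pool.Agent.helper88.OC.SS1

/-!
# Odd values of the partition function: SS5, exceptional moduli
-/

set_option autoImplicit false

open Finset

namespace Pool.Agent.helper7.OC

lemma ss5_blk_card (X a n C₁ : ℕ) : (Blk X a n C₁).card ≤ Nat.log 2 X + 1 + n := by
  classical
  unfold Blk
  refine (card_union_le _ _).trans ?_
  have h1 : ((Ico a (Nat.log 2 X + 1)).image (fun j => PA (2 ^ j) (2 ^ (j + 1)))).card ≤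
      Nat.log 2 X + 1 := by
    refine card_image_le.trans ?_
    rw [Nat.card_Ico]; omega
  have h2 : ((range n).image (fun i => P5 (2 ^ (a * 2 ^ i)) (C₁ * 2 ^ (a * 2 ^ i)))).card ≤ n := by
    refine card_image_le.trans ?_
    rw [card_range]
  omega

lemma ss5_blk_V (X a n C₁ : ℕ) (B : Finset ℕ) (hB : B ∈ Blk X a n C₁) :
    ∃ V : ℕ, 2 ^ a ≤ V ∧ ∀ ℓ ∈ B, ℓ.Prime ∧ V < ℓ ∧ ℓ ≤ (max C₁ 2) * V := by
  classical
  unfold Blk at hB
  rw [mem_union, mem_image, mem_image] at hB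
  rcases hB with ⟨j, hj, rfl⟩ | ⟨i, hi, rfl⟩
  · rw [mem_Ico] at hj
    refine ⟨2 ^ j, Nat.pow_le_pow_right (by norm_num) hj.1, fun ℓ hℓ => ?_⟩
    unfold PA at hℓ
    rw [mem_filter, mem_Ioc] at hℓ
    refine ⟨hℓ.2, hℓ.1.1, hℓ.1.2.trans ?_⟩
    rw [pow_succ, mul_comm]
    exact Nat.mul_le_mul_right _ (le_max_right _ _)
  · refine ⟨2 ^ (a * 2 ^ i), Nat.pow_le_pow_right (by norm_num)
      (Nat.le_mul_of_pos_right a (by positivity)), fun ℓ hℓ => ?_⟩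
    unfold P5 at hℓ
    rw [mem_filter, mem_Ioc] at hℓ
    exact ⟨hℓ.2.1, hℓ.1.1, hℓ.1.2.trans (Nat.mul_le_mul_right _ (le_max_left _ _))⟩

lemma ss5_log_large (K : ℝ) : ∃ X₀ : ℕ, ∀ X : ℕ, X₀ ≤ X → K ≤ Real.log X := by
  obtain ⟨N, hN⟩ := exists_nat_ge (Real.exp K)
  refine ⟨N, fun X hX => ?_⟩
  have h1 : Real.exp K ≤ X := hN.trans (by exact_mod_cast hX)
  rw [← Real.log_exp K]
  exact Real.log_le_log (Real.exp_pos _) h1

lemma ss5_natlog (X : ℕ) (hX : 1 ≤ X) : (Nat.log 2 X : ℝ) ≤ 3 / 2 * Real.log X := by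
  have h1 : 2 ^ Nat.log 2 X ≤ X := Nat.pow_log_le_self 2 (by omega)
  have h2 : ((2 : ℝ) ^ Nat.log 2 X) ≤ X := by exact_mod_cast h1
  have h3 := Real.log_le_log (by positivity) h2
  rw [Real.log_pow] at h3
  have h4 := Real.log_two_gt_d9
  have h5 : (0 : ℝ) ≤ Nat.log 2 X := Nat.cast_nonneg _
  nlinarith

theorem exc_total (C₁ : ℕ) : ∃ X₀ : ℕ, ∀ X : ℕ, X₀ ≤ X → ∀ a n : ℕ,
    (Real.log X) ^ (1600 : ℝ) ≤ 2 ^ a → (n : ℝ) ≤ Real.log X → ∀ R : ℕ,
    (((Exc X a n C₁).filter fun m => m ≤ R).card : ℝ)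
      ≤ (Real.log X) ^ 10 * (R : ℝ) ^ (14 / 1600 : ℝ) := by
  classical
  obtain ⟨X₁, h₁⟩ := exc_count (max C₁ 2) 1600 (by norm_num)
  obtain ⟨X₂, h₂⟩ := ss5_log_large 4
  refine ⟨max X₁ (max X₂ 1), fun X hX a n ha hn R => ?_⟩
  have hX1 : X₁ ≤ X := le_trans (le_max_left _ _) hX
  have hX2 : 4 ≤ Real.log X := h₂ X (le_trans (le_trans (le_max_left _ _) (le_max_right _ _)) hX)
  have hX3 : 1 ≤ X := le_trans (le_trans (le_max_right _ _) (le_max_right _ _)) hX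
  set R' := min R (24 * X) with hR'
  -- each block
  have hblk : ∀ B ∈ Blk X a n C₁, ((((Exc X a n C₁).filter fun m => m ≤ R).filter
      (fun m => 1 / (Real.log X) ^ 3 ≤ |cs B m|)).card : ℝ) ≤
      (Real.log X) ^ 8 * (R' : ℝ) ^ (14 / 1600 : ℝ) := by
    intro B hB
    obtain ⟨V, hV, hVB⟩ := ss5_blk_V X a n C₁ B hB
    refine h₁ X hX1 V R' B _ (ha.trans (by exact_mod_cast hV)) (min_le_right _ _) hVB ?_
    intro m hm
    rw [mem_filter, mem_filter] at hm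
    obtain ⟨⟨hmE, hmR⟩, hmc⟩ := hm
    unfold Exc at hmE
    rw [mem_filter, mem_Icc] at hmE
    refine ⟨hmE.2.1, ?_, ?_, le_min hmR hmE.1.2, hmc⟩
    · rw [Nat.odd_iff]; have := hmE.2.2.1; omega
    · have := hmE.2.2.1; omega
  have hcover : ((Exc X a n C₁).filter fun m => m ≤ R) ⊆
      (Blk X a n C₁).biUnion (fun B => (((Exc X a n C₁).filter fun m => m ≤ R).filter
      (fun m => 1 / (Real.log X) ^ 3 ≤ |cs B m|))) := by
    intro m hm
    rw [mem_biUnion]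
    have hm' := hm
    rw [mem_filter] at hm'
    have hmE := hm'.1
    unfold Exc at hmE
    rw [mem_filter] at hmE
    obtain ⟨B, hB, hBm⟩ := hmE.2.2.2
    exact ⟨B, hB, mem_filter.mpr ⟨hm, hBm⟩⟩
  have h3 : (((Exc X a n C₁).filter fun m => m ≤ R).card : ℝ) ≤
      ((Blk X a n C₁).card : ℝ) * ((Real.log X) ^ 8 * (R' : ℝ) ^ (14 / 1600 : ℝ)) := by
    calc (((Exc X a n C₁).filter fun m => m ≤ R).card : ℝ) ≤
        (((Blk X a n C₁).biUnion (fun B => (((Exc X a n C₁).filter fun m => m ≤ R).filter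
      (fun m => 1 / (Real.log X) ^ 3 ≤ |cs B m|)))).card : ℝ) := by
          exact_mod_cast card_le_card hcover
      _ ≤ ((∑ B ∈ Blk X a n C₁, ((((Exc X a n C₁).filter fun m => m ≤ R).filter
      (fun m => 1 / (Real.log X) ^ 3 ≤ |cs B m|))).card : ℕ) : ℝ) := by
          exact_mod_cast card_biUnion_le
      _ = ∑ B ∈ Blk X a n C₁, (((((Exc X a n C₁).filter fun m => m ≤ R).filter
      (fun m => 1 / (Real.log X) ^ 3 ≤ |cs B m|))).card : ℝ) := by push_cast; rfl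
      _ ≤ ∑ _B ∈ Blk X a n C₁, ((Real.log X) ^ 8 * (R' : ℝ) ^ (14 / 1600 : ℝ)) :=
          sum_le_sum hblk
      _ = _ := by rw [sum_const, nsmul_eq_mul]
  have h4 : ((Blk X a n C₁).card : ℝ) ≤ (Real.log X) ^ 2 := by
    have h5 := ss5_blk_card X a n C₁
    have h6 : ((Blk X a n C₁).card : ℝ) ≤ Nat.log 2 X + 1 + n := by exact_mod_cast h5
    have h7 := ss5_natlog X hX3
    nlinarith
  have h8 : (R' : ℝ) ^ (14 / 1600 : ℝ) ≤ (R : ℝ) ^ (14 / 1600 : ℝ) :=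
    Real.rpow_le_rpow (Nat.cast_nonneg _) (by exact_mod_cast min_le_left _ _) (by norm_num)
  have h9 : (0 : ℝ) ≤ (R' : ℝ) ^ (14 / 1600 : ℝ) := Real.rpow_nonneg (Nat.cast_nonneg _) _
  have h10 : (0 : ℝ) ≤ (Real.log X) ^ 8 := by positivity
  calc (((Exc X a n C₁).filter fun m => m ≤ R).card : ℝ) ≤
      ((Blk X a n C₁).card : ℝ) * ((Real.log X) ^ 8 * (R' : ℝ) ^ (14 / 1600 : ℝ)) := h3
    _ ≤ (Real.log X) ^ 2 * ((Real.log X) ^ 8 * (R' : ℝ) ^ (14 / 1600 : ℝ)) :=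
        mul_le_mul_of_nonneg_right h4 (by positivity)
    _ = (Real.log X) ^ 10 * (R' : ℝ) ^ (14 / 1600 : ℝ) := by ring
    _ ≤ _ := mul_le_mul_of_nonneg_left h8 (by positivity)

lemma ss5_mod24 (f : ℕ) (h2 : ¬ 2 ∣ f) (h3 : ¬ 3 ∣ f) : f ^ 2 % 24 = 1 := by
  have h : f % 24 = 1 ∨ f % 24 = 5 ∨ f % 24 = 7 ∨ f % 24 = 11 ∨ f % 24 = 13 ∨ f % 24 = 17 ∨
      f % 24 = 19 ∨ f % 24 = 23 := by omega
  rcases h with h | h | h | h | h | h | h | h <;> simp [Nat.pow_mod, h]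

theorem normal_spec (C₁ : ℕ) : ∃ X₀ : ℕ, ∀ X : ℕ, X₀ ≤ X → ∀ a n u : ℕ,
    (Real.log X) ^ (1600 : ℝ) ≤ 2 ^ a → 1 ≤ u → u ≤ X →
    (∀ m ∈ Exc X a n C₁, ∀ f : ℕ, 24 * u ≠ m * f ^ 2 + 1) →
    (∀ r : ℕ, a ≤ 2 ^ r → 2 ^ 2 ^ r ≤ X → -2 ≤ cs (PA (2 ^ a) (2 ^ 2 ^ r)) (24 * u - 1)) ∧
    ∀ i < n, |cs (P5 (2 ^ (a * 2 ^ i)) (C₁ * 2 ^ (a * 2 ^ i))) (24 * u - 1)|
      ≤ 2 / (Real.log X) ^ 3 := by
  classical
  obtain ⟨X₂, h₂⟩ := ss5_log_large 10
  refine ⟨max X₂ 1, fun X hX a n u ha hu huX hE => ?_⟩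
  have hX2 : 10 ≤ Real.log X := h₂ X (le_trans (le_max_left _ _) hX)
  have hX3 : 1 ≤ X := le_trans (le_max_right _ _) hX
  have hL0 : 0 < Real.log X := by linarith
  -- squarefree kernel
  obtain ⟨m, f, hmf, hsq⟩ := Nat.sq_mul_squarefree (24 * u - 1)
  have hN0 : 24 * u - 1 ≠ 0 := by omega
  have hm0 : m ≠ 0 := hsq.ne_zero
  have hf0 : f ≠ 0 := by
    rintro rfl
    simp at hmf
    omega
  have hmf' : m * f ^ 2 = 24 * u - 1 := by rw [← hmf, mul_comm]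
  have hf2 : ¬ 2 ∣ f := by
    intro hd
    have : 2 ∣ 24 * u - 1 := by
      rw [← hmf]
      exact Dvd.dvd.mul_right (dvd_pow hd (by norm_num)) m
    omega
  have hf3 : ¬ 3 ∣ f := by
    intro hd
    have : 3 ∣ 24 * u - 1 := by
      rw [← hmf]
      exact Dvd.dvd.mul_right (dvd_pow hd (by norm_num)) m
    omega
  have hf24 := ss5_mod24 f hf2 hf3
  have hm24 : m % 24 = 23 := by
    have h1 : (f ^ 2 * m) % 24 = 23 := by rw [hmf]; omega
    rw [Nat.mul_mod, hf24] at h1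
    simpa using h1
  have hmle : m ≤ 24 * u - 1 := by
    rw [← hmf]
    exact Nat.le_mul_of_pos_left m (by positivity)
  have hfle : f ≤ 24 * X := by
    have h1 : f ≤ f ^ 2 := Nat.le_self_pow (by norm_num) f
    have h2 : f ^ 2 ≤ f ^ 2 * m := Nat.le_mul_of_pos_right _ (Nat.pos_of_ne_zero hm0)
    omega
  have hnot : m ∉ Exc X a n C₁ := by
    intro hmem
    exact hE m hmem f (by omega)
  have hsmall : ∀ B ∈ Blk X a n C₁, |cs B m| < 1 / (Real.log X) ^ 3 := by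
    intro B hB
    by_contra hlt
    apply hnot
    unfold Exc
    rw [mem_filter, mem_Icc]
    exact ⟨⟨by omega, by omega⟩, hsq, hm24, B, hB, not_lt.mp hlt⟩
  -- kernel error
  have hlogf : (Nat.log 2 f : ℝ) ≤ 2 * Real.log X := by
    have h1 : Nat.log 2 f ≤ Nat.log 2 (24 * X) := Nat.log_mono_right hfle
    have h2 := ss5_natlog (24 * X) (by omega)
    have h3 : Real.log ((24 * X : ℕ) : ℝ) = Real.log 24 + Real.log X := by
      push_cast
      rw [Real.log_mul (by norm_num) (by positivity)]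
    have h4 : Real.log 24 ≤ 10 / 3 := by
      have : Real.log 24 ≤ Real.log (2 ^ (24 / 5 : ℝ)) := by
        apply Real.log_le_log (by norm_num)
        have h5 : (24 : ℝ) ≤ ((2 : ℝ) ^ (24 / 5 : ℝ)) := by
          have h6 : ((2 : ℝ) ^ (24 / 5 : ℝ)) ^ 5 = 2 ^ 24 := by
            rw [← Real.rpow_natCast, ← Real.rpow_mul (by norm_num)]
            norm_num
          by_contra hlt
          push Not at hlt
          have h7 : ((2 : ℝ) ^ (24 / 5 : ℝ)) ^ 5 < 24 ^ 5 :=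
            pow_lt_pow_left₀ hlt (by positivity) (by norm_num)
          rw [h6] at h7
          norm_num at h7
        exact h5
      rw [Real.log_rpow (by norm_num)] at this
      have := Real.log_two_lt_d9
      linarith
    have h5 : (Nat.log 2 f : ℝ) ≤ (Nat.log 2 (24 * X) : ℝ) := by exact_mod_cast h1
    rw [h3] at h2
    linarith
  have hVerr : ∀ V : ℕ, 2 ^ a ≤ V → (Nat.log 2 f : ℝ) / V ≤ 1 / (Real.log X) ^ 3 := by
    intro V hV
    have h1 : (Real.log X) ^ (1600 : ℝ) ≤ V := ha.trans (by exact_mod_cast hV)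
    have h2 : (Real.log X) ^ 1600 ≤ (V : ℝ) := by
      have : (Real.log X) ^ (1600 : ℝ) = (Real.log X) ^ (1600 : ℕ) := by
        rw [← Real.rpow_natCast]; norm_num
      rwa [this] at h1
    have h3 : (Real.log X) ^ 5 ≤ (V : ℝ) :=
      (pow_le_pow_right₀ (by linarith) (by norm_num)).trans h2
    have hV0 : (0 : ℝ) < V := lt_of_lt_of_le (by positivity) h3
    rw [div_le_div_iff₀ hV0 (by positivity)]
    have h4 : (Nat.log 2 f : ℝ) * Real.log X ^ 3 ≤ 2 * Real.log X * Real.log X ^ 3 :=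
      mul_le_mul_of_nonneg_right hlogf (by positivity)
    have h5 : 2 * Real.log X * Real.log X ^ 3 ≤ Real.log X ^ 5 := by
      have : 0 ≤ Real.log X ^ 4 * (Real.log X - 2) := mul_nonneg (by positivity) (by linarith)
      nlinarith
    linarith
  have hblk : ∀ B ∈ Blk X a n C₁, |cs B (24 * u - 1)| ≤ 2 / (Real.log X) ^ 3 := by
    intro B hB
    obtain ⟨V, hV, hVB⟩ := ss5_blk_V X a n C₁ B hB
    have hV1 : 1 ≤ V := le_trans (Nat.one_le_two_pow) hV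
    have h1 := cs_kernel B V m f hV1 (fun ℓ hℓ => ⟨(hVB ℓ hℓ).1, (hVB ℓ hℓ).2.1⟩) hm0 hf0
    rw [hmf'] at h1
    have h2 := hsmall B hB
    have h3 := hVerr V hV
    have h4 : |cs B (24 * u - 1)| ≤ |cs B (24 * u - 1) - cs B m| + |cs B m| := by
      have := abs_add_le (cs B (24 * u - 1) - cs B m) (cs B m)
      simpa using this
    have h5 : 2 / (Real.log X) ^ 3 = 1 / (Real.log X) ^ 3 + 1 / (Real.log X) ^ 3 := by ring
    rw [h5]
    linarith
  constructor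
  · intro r har hrX
    rw [cs_dyadic a (2 ^ r) _ har]
    have h1 : ∀ j ∈ Ico a (2 ^ r), -(2 / (Real.log X) ^ 3) ≤
        cs (PA (2 ^ j) (2 ^ (j + 1))) (24 * u - 1) := by
      intro j hj
      rw [mem_Ico] at hj
      have hjX : j < Nat.log 2 X + 1 := by
        have : 2 ^ r ≤ Nat.log 2 X := Nat.le_log_of_pow_le (by norm_num) hrX
        omega
      have hB : PA (2 ^ j) (2 ^ (j + 1)) ∈ Blk X a n C₁ := by
        unfold Blk
        rw [mem_union, mem_image]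
        left
        exact ⟨j, mem_Ico.mpr ⟨hj.1, hjX⟩, rfl⟩
      exact (abs_le.mp (hblk _ hB)).1
    have h2 := sum_le_sum h1
    rw [sum_const, nsmul_eq_mul, Nat.card_Ico] at h2
    refine le_trans ?_ h2
    have h3 : ((2 ^ r - a : ℕ) : ℝ) ≤ 3 / 2 * Real.log X := by
      have h4 : 2 ^ r ≤ Nat.log 2 X := Nat.le_log_of_pow_le (by norm_num) hrX
      have h5 := ss5_natlog X hX3
      have h6 : ((2 ^ r - a : ℕ) : ℝ) ≤ (Nat.log 2 X : ℝ) := by
        exact_mod_cast (by omega : 2 ^ r - a ≤ Nat.log 2 X)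
      linarith
    have h7 : ((2 ^ r - a : ℕ) : ℝ) * (2 / (Real.log X) ^ 3) ≤ 2 := by
      rw [mul_div_assoc', div_le_iff₀ (by positivity)]
      have h8 : (10 : ℝ) ^ 2 ≤ Real.log X ^ 2 := pow_le_pow_left₀ (by norm_num) hX2 2
      nlinarith
    linarith
  · intro i hi
    apply hblk
    unfold Blk
    rw [mem_union, mem_image, mem_image]
    right
    exact ⟨i, mem_range.mpr hi, rfl⟩

end Pool.Agent.helper7.OC
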